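import Pool.Agent.V8H58.FS.Red

set_option autoImplicit false

/-!
Lipschitz-free spaces over uniformly separated metric spaces are quantitatively weakly sequentially complete (and have
the quantitative Schur property) with an absolute constant.
-/

namespace Pool.Agent.Results.MP_d136d9_an.QuantSchur

open Pool.Agent.V8H58.FS
open scoped ENNReal NNReal

/-- `M` is uniformly separated: the infimum of the distances of distinct points is positive -/
def UnifSep (M : Type*) [MetricSpace M] : Prop := ∃ s : ℝ, 0 < s ∧ ∀ x y : M, x ≠ y → s ≤ dist x y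

/-- the answer to Q1 is positive, with an absolute constant -/
theorem result (𝕜 : Type*) [RCLike 𝕜] (M : Type*) [MetricSpace M] (o : M) (hM : UnifSep M) :
    QWsc 𝕜 (LipFree 𝕜 M o) ∧ CWsc 𝕜 (LipFree 𝕜 M o) 114 ∧ CSchur 𝕜 (LipFree 𝕜 M o) 114 := by
  obtain ⟨s, hs, hsep⟩ := hM
  have h1 : CSchur 𝕜 (LipFree 𝕜 M o) 114 := schur hs hsep
  have h2 : CWsc 𝕜 (LipFree 𝕜 M o) 114 := by
    rintro x ⟨B, hB⟩
    exact (wck_le_ca 𝕜 x B hB).trans (h1 x ⟨B, hB⟩)
  exact ⟨⟨114, h2⟩, h2, h1⟩

end Pool.Agent.Results.MP_d136d9_an.QuantSchur
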